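import Mathlib
set_option autoImplicit false

namespace Pool.Agent.Results.MP_6dc06d_co.No
open Finset

open Classical in
/-- `w` is an eulerian weight of `G` with values in `{1, 2}`. -/
def Eul {V : Type} [Fintype V] (G : SimpleGraph V) (w : Sym2 V → ℕ) : Prop :=
  (∀ f ∈ G.edgeSet, w f = 1 ∨ w f = 2) ∧ ∀ v, Even (∑ u with G.Adj v u, w s(v, u))

open Classical in
/-- `(H, w)` has a faithful circuit cover. -/
def Faith {V : Type} (H : SimpleGraph V) (w : Sym2 V → ℕ) : Prop :=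
  ∃ F : List (Σ v, H.Walk v v), (∀ C ∈ F, C.2.IsCycle) ∧
    ∀ f ∈ H.edgeSet, F.countP (fun C => f ∈ C.2.edges) = w f

def nb (a : Fin 18) (i : Fin 3) : Fin 18 := Fin.ofNat 18
  ((738253127024274097570197737730104057893110270359437876511366992223016726051229987 >>>
    (5 * (3 * a.1 + i.1))) % 32)

def G : SimpleGraph (Fin 18) where
  Adj a b := ∃ i, nb a i = b
  symm := ⟨by decide +kernel⟩
  loopless := ⟨by decide +kernel⟩

instance : DecidableRel G.Adj := fun a b => inferInstanceAs (Decidable (∃ i, nb a i = b))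

instance : DecidableRel (G.deleteEdges {s(0, 4)}).Adj := fun a b =>
  decidable_of_iff (G.Adj a b ∧ s(a, b) ≠ s(0, 4)) (by simp)

def w : Sym2 (Fin 18) → ℕ := Sym2.lift ⟨fun a b => if nb a 2 = b then 2 else 1, by decide +kernel⟩

def cov : List (Σ v, (G.deleteEdges {s(0, 4)}).Walk v v) := [
  ⟨1, .cons (v := 2) (by decide) (.cons (v := 6) (by decide) (.cons (v := 4) (by decide) (.cons (v := 5) (by decide) (.cons (v := 1) (by decide) .nil))))⟩,
  ⟨1, .cons (v := 8) (by decide) (.cons (v := 13) (by decide) (.cons (v := 15) (by decide) (.cons (v := 10) (by decide) (.cons (v := 6) (by decide) (.cons (v := 2) (by decide) (.cons (v := 3) (by decide) (.cons (v := 7) (by decide) (.cons (v := 5) (by decide) (.cons (v := 1) (by decide) .nil)))))))))⟩,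
  ⟨0, .cons (v := 3) (by decide) (.cons (v := 7) (by decide) (.cons (v := 11) (by decide) (.cons (v := 16) (by decide) (.cons (v := 13) (by decide) (.cons (v := 8) (by decide) (.cons (v := 12) (by decide) (.cons (v := 17) (by decide) (.cons (v := 14) (by decide) (.cons (v := 9) (by decide) (.cons (v := 0) (by decide) .nil))))))))))⟩,
  ⟨9, .cons (v := 10) (by decide) (.cons (v := 15) (by decide) (.cons (v := 17) (by decide) (.cons (v := 12) (by decide) (.cons (v := 11) (by decide) (.cons (v := 16) (by decide) (.cons (v := 14) (by decide) (.cons (v := 9) (by decide) .nil)))))))⟩]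

def C0 : G.Walk 0 0 := .cons (v := 9) (by decide) (.cons (v := 10) (by decide) (.cons (v := 6) (by decide)
  (.cons (v := 4) (by decide) (.cons (v := 0) (by decide) .nil))))

theorem cyc {V : Type} {H : SimpleGraph V} {v : V} (p : H.Walk v v)
    (h : p.edges.Nodup ∧ p.length ≠ 0 ∧ p.support.tail.Nodup) : p.IsCycle :=
  ⟨⟨⟨h.1⟩, fun e => h.2.1 (by rw [e]; rfl)⟩, h.2.2⟩

theorem no : ¬Faith G w := by
  classical
  rintro ⟨F, h1, h2⟩
  obtain ⟨A, hA⟩ : ∃ A : Sym2 (Fin 18) → Finset (Fin F.length), ∀ f i, i ∈ A f ↔ f ∈ (F.get i).2.edges :=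
    ⟨fun f => univ.filter fun i => f ∈ (F.get i).2.edges, by simp⟩
  have a1 : ∀ a i, (A s(a, nb a i)).card = w s(a, nb a i) := fun a i => by
    rw [← h2 s(a, nb a i) ⟨i, rfl⟩]
    conv_rhs => rw [← List.map_get_finRange F, List.countP_map, List.countP_eq_length_filter,
      ← List.toFinset_card_of_nodup ((List.nodup_finRange _).filter _)]
    congr 1
    ext j
    simp [hA]
  have t : ∀ a, w s(a, nb a 0) = 1 ∧ w s(a, nb a 1) = 1 ∧ w s(a, nb a 2) = 2 ∧ nb (nb a 2) 2 = a := by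
    decide +kernel
  have a2 : ∀ a, A s(a, nb a 2) = A s(a, nb a 0) ∪ A s(a, nb a 1) := fun a => by
    refine eq_of_subset_of_card_le (fun j hj => ?_) ((card_union_le _ _).trans (by
      rw [a1, a1, a1, (t a).1, (t a).2.1, (t a).2.2.1]))
    obtain ⟨b, p, q⟩ := (h1 _ (List.get_mem F j)).isCycles_spanningCoe_toSubgraph.other_adj_of_adj
      (v := a) (w := nb a 2) (SimpleGraph.Walk.adj_toSubgraph_iff_mem_edges.2 ((hA _ _).1 hj))
    obtain ⟨i, rfl⟩ := (F.get j).2.toSubgraph.adj_sub q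
    have : j ∈ A s(a, nb a i) := (hA _ _).2 (SimpleGraph.Walk.adj_toSubgraph_iff_mem_edges.1 q)
    fin_cases i
    exacts [mem_union_left _ this, mem_union_right _ this, absurd rfl p]
  have a3 : ∀ a, ∀ i : Fin 3, i ≠ 2 → ∃ c, A s(a, nb a i) = {c} := fun a i h =>
    card_eq_one.1 ((a1 a i).trans (by revert a i; decide +kernel))
  obtain ⟨c, hc⟩ : ∃ c : Sym2 (Fin 18) → ℕ, ∀ f d, A f = {d} → c f = d :=
    ⟨fun f => ∑ d ∈ A f, d, fun f d e => by simp [e]⟩
  have k : ∀ a, c s(a, nb a 0) ≠ c s(a, nb a 1) ∧ ∀ i : Fin 3, i ≠ 2 →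
      c s(nb a 2, nb (nb a 2) i) = c s(a, nb a 0) ∨ c s(nb a 2, nb (nb a 2) i) = c s(a, nb a 1) := fun a => by
    obtain ⟨x, p⟩ := a3 a 0 (by decide)
    obtain ⟨y, q⟩ := a3 a 1 (by decide)
    have r := a2 a
    rw [hc _ _ p, hc _ _ q]
    rw [p, q] at r
    refine ⟨fun e => ?_, fun i h => ?_⟩
    · have := a1 a 2
      rw [r, Fin.ext e, union_self, (t a).2.2.1] at this
      cases this
    · obtain ⟨z, s⟩ := a3 (nb a 2) i h
      have : z ∈ A s(nb a 2, nb (nb a 2) 2) := by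
        rw [a2]
        fin_cases i
        exacts [mem_union_left _ (s ▸ mem_singleton_self z), mem_union_right _ (s ▸ mem_singleton_self z),
          absurd rfl h]
      rw [(t a).2.2.2, Sym2.eq_swap, r] at this
      rw [hc _ _ s]
      simpa [Fin.ext_iff] using this
  obtain ⟨d, hd⟩ : ∃ d : Fin 18 → Fin 18 → ℕ, ∀ a b, c s(a, b) = d (min a b) (max a b) :=
    ⟨fun a b => c s(a, b), fun a b => by
      rcases le_total a b with h | h <;> simp [h, Sym2.eq_swap]⟩
  simp only [hd] at k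
  have q : ∀ a p q r s : Fin 18 × Fin 18, (min a.1 (nb a.1 0), max a.1 (nb a.1 0)) = p ∧
      (min a.1 (nb a.1 1), max a.1 (nb a.1 1)) = q ∧ nb a.1 2 = a.2 ∧
      (min a.2 (nb a.2 0), max a.2 (nb a.2 0)) = r ∧ (min a.2 (nb a.2 1), max a.2 (nb a.2 1)) = s →
      d p.1 p.2 ≠ d q.1 q.2 ∧ (d r.1 r.2 = d p.1 p.2 ∧ d s.1 s.2 = d q.1 q.2 ∨
        d r.1 r.2 = d q.1 q.2 ∧ d s.1 s.2 = d p.1 p.2) := by
    rintro ⟨a, b⟩ _ _ _ _ ⟨rfl, rfl, e, rfl, rfl⟩
    obtain rfl : nb a 2 = b := e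
    have := k a
    have := this.2 0 (by decide)
    have := (k a).2 1 (by decide)
    have := (k (nb a 2)).1
    grind
  have q1 := q (0, 4) (0, 3) (0, 9) (4, 5) (4, 6) (by decide)
  have q2 := q (1, 5) (1, 2) (1, 8) (4, 5) (5, 7) (by decide)
  have q3 := q (2, 6) (1, 2) (2, 3) (4, 6) (6, 10) (by decide)
  have q4 := q (3, 7) (2, 3) (0, 3) (5, 7) (7, 11) (by decide)
  have q5 := q (8, 13) (1, 8) (8, 12) (13, 15) (13, 16) (by decide)
  have q6 := q (9, 14) (0, 9) (9, 10) (14, 16) (14, 17) (by decide)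
  have q7 := q (10, 15) (6, 10) (9, 10) (13, 15) (15, 17) (by decide)
  have q8 := q (11, 16) (7, 11) (11, 12) (14, 16) (13, 16) (by decide)
  have q9 := q (12, 17) (11, 12) (8, 12) (15, 17) (14, 17) (by decide)
  clear * - q1 q2 q3 q4 q5 q6 q7 q8 q9
  grind

theorem result : ∃ (G : SimpleGraph (Fin 18)) (w : Sym2 (Fin 18) → ℕ) (e : Sym2 (Fin 18)) (v : Fin 18)
    (C : G.Walk v v), (∀ u, (G.neighborSet u).ncard = 3) ∧ Eul G w ∧ C.IsCycle ∧ C.length = 5 ∧
      e ∈ C.edges ∧ (∀ f ∈ C.edges, w f = 2 ↔ f = e) ∧ Faith (G.deleteEdges {e}) w ∧ ¬Faith G w := by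
  refine ⟨G, w, s(0, 4), 0, C0, fun u => ?_, ⟨?_, fun v => ?_⟩, cyc _ (by decide), rfl, by decide,
    by decide +kernel, ⟨cov, fun C h => cyc _ (by revert C; decide +kernel), ?_⟩, no⟩
  · rw [show G.neighborSet u = Set.range (nb u) from rfl, Set.ncard_range_of_injective]
    · simp
    · revert u
      decide +kernel
  · rintro ⟨a, b⟩ -
    revert a b
    change ∀ a b, w s(a, b) = 1 ∨ w s(a, b) = 2
    decide +kernel
  · rw [filter_congr_decidable]
    revert v
    decide +kernel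
  · rintro ⟨a, b⟩ h
    exact (List.countP_congr fun C _ => by simp only [decide_eq_true_eq]).trans ((by decide +kernel :
      ∀ a b, (G.deleteEdges {s(0, 4)}).Adj a b →
        cov.countP (fun C => s(a, b) ∈ C.2.edges) = w s(a, b)) a b h)

end Pool.Agent.Results.MP_6dc06d_co.No
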